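import Pool.Agent.PCS.Stmts

/-!
Squad PCS (MP_c4a8aa_al), row EIA: the end of the proof if the spines are infinite.
-/

set_option autoImplicit false

open scoped Pointwise

namespace Pool.Agent.PCS.H85

open Pool.Agent.H50.CIG

theorem eia (lev : LevStmt) (spa : SpaStmt) (spb : SpbStmt) : EiaStmt := by
  intro Γ V _ _ T S rk R K q M hset H hH U n hgood hn hal
  have hS : S.Nonempty := ⟨1, hset.one_mem⟩
  refine hgood.2.subset ?_
  rintro h ⟨hhH, hhang⟩
  change ∀ᶠ v in (U : Filter V), h ∈ KK T v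
  filter_upwards [hgood.1, hal, hhang] with v hN hA hh
  refine (spb Γ V T S rk R hset.rank hS v h).2 hA (fun m => ?_) hh
  apply hH _ _ h hhH
  rw [((spa Γ V T S rk R hset.rank hS).1 m v (hA m)).1, hN]
  have h1 := (lev Γ V T).1
  calc n ≤ M := hn
    _ = 1 * M := (one_mul M).symm
    _ ≤ T.d * M := Nat.mul_le_mul_right M h1

end Pool.Agent.PCS.H85
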